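import Pool.Agent.P.MP_50fd71_pr.E8.Main

/-!
The k-nearest neighbour graph of a planar Poisson process percolates for every k at least eight.
-/

open MeasureTheory ProbabilityTheory

namespace Pool.Agent.Results.MP_50fd71_pr.Eight

/-- `P` is a homogeneous Poisson point process of intensity one in the plane. -/
structure IsPoisson {Ω : Type} [MeasurableSpace Ω] (μ : Measure Ω) (P : Ω → Set ℂ) : Prop where
  prob : IsProbabilityMeasure μ
  locFin : ∀ (ω : Ω) (A : Set ℂ), Bornology.IsBounded A → (P ω ∩ A).Finite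
  meas : ∀ A : Set ℂ, MeasurableSet A → Bornology.IsBounded A →
    Measurable fun ω => (P ω ∩ A).ncard
  law : ∀ A : Set ℂ, MeasurableSet A → Bornology.IsBounded A → ∀ n : ℕ,
    μ.real {ω | (P ω ∩ A).ncard = n} =
      Real.exp (-volume.real A) * volume.real A ^ n / (n.factorial : ℝ)
  indep : ∀ (n : ℕ) (A : Fin n → Set ℂ), (∀ i, MeasurableSet (A i)) →
    (∀ i, Bornology.IsBounded (A i)) → (∀ i j, i ≠ j → Disjoint (A i) (A j)) →
    iIndepFun (fun i ω => (P ω ∩ A i).ncard) μ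

/-- The undirected k-nearest neighbour graph on the point set `S`. -/
def knn (k : ℕ) (S : Set ℂ) : SimpleGraph S :=
  SimpleGraph.fromRel fun x y =>
    {w : ℂ | w ∈ S ∧ w ≠ x ∧ dist (x : ℂ) w < dist (x : ℂ) y}.ncard < k

theorem result (k : ℕ) (hk : 8 ≤ k) (Ω : Type) [MeasurableSpace Ω] (μ : Measure Ω)
    (P : Ω → Set ℂ) (hP : IsPoisson μ P) :
    ∀ᵐ ω ∂μ, ∃ c : (knn k (P ω)).ConnectedComponent, c.supp.Infinite := by
  have h : Pool.Agent.P.MP_50fd71_pr.Poi μ P :=
    ⟨hP.prob, hP.locFin, fun A hA => hP.meas A hA.1 hA.2, fun A hA => hP.law A hA.1 hA.2,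
      fun n A h1 h2 => hP.indep n A (fun i => (h1 i).1) (fun i => (h1 i).2) fun _ _ hij => h2 hij⟩
  filter_upwards [Pool.Agent.P.MP_50fd71_pr.E8.perc8 h] with ω ⟨x, hx⟩
  have hS : x ∈ P ω := by
    obtain ⟨y, hy, hyx⟩ := hx.exists_notMem_finite (Set.finite_singleton x)
    rcases Relation.ReflTransGen.cases_head hy with rfl | ⟨z, hz, -⟩
    · exact absurd rfl hyx
    · exact hz.2.1
  refine ⟨(knn k (P ω)).connectedComponentMk ⟨x, hS⟩, fun hf => hx ((hf.image (↑)).subset ?_)⟩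
  intro y hy
  induction hy with
  | refl => exact ⟨⟨x, hS⟩, rfl, rfl⟩
  | tail _ hz ih =>
    obtain ⟨u, hu, rfl⟩ := ih
    refine ⟨⟨_, hz.2.2.1⟩, SimpleGraph.ConnectedComponent.mem_supp_of_adj_mem_supp _ hu ?_, rfl⟩
    exact (SimpleGraph.fromRel_adj _ _ _).2 ⟨fun e => hz.1 (congrArg Subtype.val e),
      hz.2.2.2.imp (fun a => a.trans_le hk) fun a => a.trans_le hk⟩

end Pool.Agent.Results.MP_50fd71_pr.Eight
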